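import Pool.Agent.W617.LG.StmI

/-! Laugwitz' problem: the potential of the trace (S_TAU). -/

set_option autoImplicit false
open Topology Filter Set
open scoped ContDiff InnerProductSpace

namespace Pool.Agent.W471.LG

open Pool.Agent.W617.LG

/-- trace as a continuous linear map -/
noncomputable def trL (q : ℕ) : (E q →L[ℝ] E q) →L[ℝ] ℝ :=
  LinearMap.toContinuousLinearMap
    ((LinearMap.trace ℝ (E q)).comp (ContinuousLinearMap.coeLM ℝ))

theorem trL_apply (q : ℕ) (T : E q →L[ℝ] E q) :
    trL q T = LinearMap.trace ℝ (E q) T.toLinearMap := rfl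

theorem tau (hP : S_POIN) : S_TAU := by
  intro q C h
  obtain ⟨τ, hτ⟩ := hP q h.q1 ℝ (fun x => (trL q).comp (C x))
    (fun x hx => by
      have h1 : ContDiffAt ℝ ∞ C x := h.smooth x hx
      exact contDiffAt_const.clm_comp (h1.of_le (by exact_mod_cast le_top)))
    (fun x hx u v => by
      have h1 : DifferentiableAt ℝ C x := (h.smooth x hx).differentiableAt (by simp)
      have h2 : HasFDerivAt (fun x => (trL q).comp (C x))
          ((ContinuousLinearMap.compL ℝ (E q) (E q →L[ℝ] E q) ℝ (trL q)).comp (fderiv ℝ C x)) x :=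
        by
          have h3 : HasFDerivAt C (fderiv ℝ C x) x := h1.hasFDerivAt
          have h4 : HasFDerivAt (fun T : E q →L[ℝ] (E q →L[ℝ] E q) => (trL q).comp T)
              (ContinuousLinearMap.compL ℝ (E q) (E q →L[ℝ] E q) ℝ (trL q)) (C x) :=
            (ContinuousLinearMap.compL ℝ (E q) (E q →L[ℝ] E q) ℝ (trL q)).hasFDerivAt
          exact HasFDerivAt.comp (f := C)
            (g := fun T : E q →L[ℝ] (E q →L[ℝ] E q) => (trL q).comp T) x h4 h3
      rw [h2.fderiv]
      simp only [ContinuousLinearMap.comp_apply, ContinuousLinearMap.compL_apply]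
      rw [h.cod x hx u v])
  have hf : ∀ x, x ≠ 0 → fderiv ℝ τ x = (trL q).comp (C x) := fun x hx => (hτ x hx).fderiv
  have hopen : IsOpen {x : E q | x ≠ 0} := isOpen_ne
  have hsm : ContDiffOn ℝ ∞ τ {x : E q | x ≠ 0} := by
    rw [contDiffOn_infty_iff_fderiv_of_isOpen hopen]
    refine ⟨fun x hx => (hτ x hx).differentiableAt.differentiableWithinAt, ?_⟩
    refine ContDiffOn.congr (f := fun x => (trL q).comp (C x)) ?_ (fun x hx => hf x hx)
    intro x hx
    exact (contDiffAt_const.clm_comp (h.smooth x hx)).contDiffWithinAt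
  refine ⟨τ, fun x hx => hsm.contDiffAt (hopen.mem_nhds hx), fun x hx v => ?_, fun x hx r hr => ?_⟩
  · rw [hf x hx]; rfl
  · have hd : ∀ s : ℝ, 0 < s → HasDerivAt (fun s : ℝ => τ (s • x)) 0 s := by
      intro s hs
      have hsx : s • x ≠ 0 := smul_ne_zero hs.ne' hx
      have h1 : HasDerivAt (fun s : ℝ => s • x) x s := by
        simpa using (hasDerivAt_id s).smul_const x
      have h2 := (hτ (s • x) hsx).comp_hasDerivAt s h1
      have h3 : ((trL q).comp (C (s • x))) x = 0 := by
        rw [h.hom x hx s hs]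
        simp [h.rad x hx]
      rwa [h3] at h2
    have h1 := IsOpen.is_const_of_deriv_eq_zero (f := fun s : ℝ => τ (s • x)) (s := Ioi (0 : ℝ))
      isOpen_Ioi (convex_Ioi 0).isPreconnected
      (fun s hs => (hd s hs).differentiableAt.differentiableWithinAt)
      (fun s hs => (hd s hs).deriv) (x := r) hr (y := 1) (by simp)
    simpa using h1

end Pool.Agent.W471.LG
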